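import Pool.Agent.H77.SF.KT

open Ordinal Cardinal Order Set Filter
open scoped ZFSet

namespace SF.H32

open SF

theorem kg (hKD : T_KD) : T_KG := by
  intro κ N W hκ hW hsub
  have key := hKD κ N W hκ hW (fun t Y => ∀ y, y ⊆ t 0 →
    ∃ s ∈ Y, s ⊆ t 0 ∧ ∀ v ∈ Y, v ∈ s ↔ v ∈ y) ?_
  · filter_upwards [key] with Y hY z hz y hy
    exact hY (fun _ => z) (fun _ => hz) y hy
  intro t ht
  by_contra hcon
  have hcon' := Ultrafilter.eventually_not.2 hcon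
  have hch : ∀ Y : V, ∃ y : V, (¬ ∀ y, y ⊆ t 0 → ∃ s ∈ Y, s ⊆ t 0 ∧ ∀ v ∈ Y, v ∈ s ↔ v ∈ y) →
      y ⊆ t 0 ∧ ∀ s ∈ Y, s ⊆ t 0 → ¬ ∀ v ∈ Y, v ∈ s ↔ v ∈ y := by
    intro Y
    by_cases h : ∀ y, y ⊆ t 0 → ∃ s ∈ Y, s ⊆ t 0 ∧ ∀ v ∈ Y, v ∈ s ↔ v ∈ y
    · exact ⟨∅, fun h' => absurd h h'⟩
    · have h2 := h
      push Not at h2
      obtain ⟨y, hy, hy'⟩ := h2
      refine ⟨y, fun _ => ⟨hy, fun s hs hst hall => ?_⟩⟩
      obtain ⟨v, hv, hv'⟩ := hy' s hs hst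
      have h3 := hall v hv
      rcases hv' with h4 | h4
      · exact h4.2 (h3.1 h4.1)
      · exact h4.1 (h3.2 h4.2)
  choose y hy using hch
  let s : V := ZFSet.sep (fun v => ∀ᶠ Y in (W : Filter V), v ∈ y Y) (t 0)
  have hs1 : s ⊆ t 0 := fun v hv => (ZFSet.mem_sep.1 hv).1
  have hs2 : s ∈ N := hsub _ (ht 0) _ hs1
  have key2 := hKD κ N W hκ hW (fun u Y => u 0 ∈ t 0 → (u 0 ∈ s ↔ u 0 ∈ y Y)) ?_
  · obtain ⟨Y, hY1, hY2, hY3⟩ := (hcon'.and (key2.and (hW.fine s hs2))).exists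
    obtain ⟨h1, h2⟩ := hy Y hY1
    refine h2 s hY3 hs1 fun v hv => ?_
    by_cases hvz : v ∈ t 0
    · exact hY2 (fun _ => v) (fun _ => hv) hvz
    · exact ⟨fun h => absurd (hs1 h) hvz, fun h => absurd (h1 h) hvz⟩
  intro u _
  by_cases hu : u 0 ∈ t 0
  · by_cases hus : u 0 ∈ s
    · filter_upwards [(ZFSet.mem_sep.1 hus).2] with Y hY _
      exact ⟨fun _ => hY, fun _ => hus⟩
    · have h5 : ¬ ∀ᶠ Y in (W : Filter V), u 0 ∈ y Y := fun h => hus (ZFSet.mem_sep.2 ⟨hu, h⟩)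
      filter_upwards [Ultrafilter.eventually_not.2 h5] with Y hY _
      exact ⟨fun h => absurd h hus, fun h => absurd h hY⟩
  · exact Filter.Eventually.of_forall fun Y h => absurd h hu

end SF.H32
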