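import Pool.Agent.H77.SF.KT

open Ordinal Cardinal Order Set Filter
open scoped ZFSet

namespace SF.H32

open SF

theorem ki (hKC : T_KC) : T_KI := by
  intro κ hκ
  obtain ⟨W, hW⟩ := hKC κ hκ κ.ord.toZFSet
  -- the least ordinal which is missing
  let d : V → Ordinal.{0} := fun Y => sInf {α : Ordinal.{0} | α.toZFSet ∉ Y}
  have hd1 : ∀ α < κ.ord, ∀ᶠ Y in (W : Filter V), α < d Y := by
    intro α hα
    have hκ' : κ.ord.card = κ := Cardinal.card_ord κ
    have hlim : IsSuccLimit κ.ord := Cardinal.isSuccLimit_ord hκ.1.le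
    have hα' : succ α < κ.ord := hlim.succ_lt hα
    have hc : #(succ α).ToType < κ := by
      rw [Cardinal.mk_toType]; exact Cardinal.lt_ord.1 hα'
    have := hW.comp (succ α).ToType (fun i Y => (i.toOrd : Ordinal.{0}).toZFSet ∈ Y) hc
      (fun i => hW.fine _ (Ordinal.toZFSet_mem_toZFSet_iff.2 (lt_trans i.toOrd.2 hα')))
    filter_upwards [this, hW.small] with Y hY hYs
    have hne : {α : Ordinal.{0} | α.toZFSet ∉ Y}.Nonempty := by
      by_contra hemp
      rw [Set.not_nonempty_iff_eq_empty, Set.eq_empty_iff_forall_notMem] at hemp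
      have hsub : κ.ord.toZFSet ⊆ Y := by
        intro x hx
        obtain ⟨a, _, rfl⟩ := Ordinal.mem_toZFSet_iff.1 hx
        by_contra h
        exact hemp a h
      have := ZFSet.card_mono hsub
      rw [Ordinal.card_toZFSet, hκ'] at this
      exact absurd hYs (not_lt.2 this)
    have hmem := csInf_mem hne
    by_contra hlt
    have hle : d Y < succ α := lt_of_le_of_lt (not_lt.1 hlt) (lt_succ α)
    have := hY (Ordinal.ToType.mk ⟨d Y, hle⟩)
    simp only [Ordinal.ToType.toOrd, OrderIso.symm_apply_apply] at this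
    exact hmem this
  have hd2 : ∀ᶠ Y in (W : Filter V), d Y < κ.ord := by
    filter_upwards [hW.small] with Y hYs
    by_contra h
    have hsub : κ.ord.toZFSet ⊆ Y := by
      intro x hx
      obtain ⟨a, ha, rfl⟩ := Ordinal.mem_toZFSet_iff.1 hx
      by_contra h'
      exact absurd (csInf_le' (show a ∈ {α : Ordinal.{0} | α.toZFSet ∉ Y} from h'))
        (not_le.2 (lt_of_lt_of_le ha (not_lt.1 h)))
    have := ZFSet.card_mono hsub
    rw [Ordinal.card_toZFSet, Cardinal.card_ord] at this
    exact absurd hYs (not_lt.2 this)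
  refine ⟨hκ.1, ?_, ?_⟩
  · rw [← Ordinal.cof_toType, Order.le_cof_iff]
    intro s hs
    by_contra hlt
    have h1 := hW.comp s (fun i Y => ((i.1 : κ.ord.ToType).toOrd : Ordinal.{0}) < d Y) (not_le.1 hlt)
      (fun i => hd1 _ i.1.toOrd.2)
    obtain ⟨Y, hY1, hY2⟩ := (h1.and hd2).exists
    obtain ⟨i, hi, hi'⟩ := hs (Ordinal.ToType.mk ⟨d Y, hY2⟩)
    have h3 := hY1 ⟨i, hi⟩
    have h4 : (⟨d Y, hY2⟩ : Set.Iio κ.ord) ≤ i.toOrd := by
      rw [Ordinal.ToType.toOrd, OrderIso.le_symm_apply]; exact hi'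
    exact absurd h3 (not_lt.2 h4)
  · intro μ hμ
    by_contra hle
    have hle' : κ ≤ 2 ^ μ := not_lt.1 hle
    obtain ⟨e⟩ : Nonempty (κ.ord.ToType ↪ Set μ.out) := by
      rw [← Cardinal.le_def, Cardinal.mk_ord_toType, Cardinal.mk_set, Cardinal.mk_out]
      exact hle'
    classical
    let E : V → Set μ.out := fun Y => if h : d Y < κ.ord then e (Ordinal.ToType.mk ⟨d Y, h⟩) else ∅
    let c : Set μ.out := {i | ∀ᶠ Y in (W : Filter V), i ∈ E Y}
    have h1 := hW.comp μ.out (fun i Y => i ∈ E Y ↔ i ∈ c) (by rw [Cardinal.mk_out]; exact hμ) ?_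
    · have h2 : ∀ᶠ Y in (W : Filter V), E Y = c := by
        filter_upwards [h1] with Y hY
        ext i; exact hY i
      obtain ⟨Y0, hY0, hY0'⟩ := (h2.and hd2).exists
      obtain ⟨Y, hY, hY', hY''⟩ := (h2.and (hd2.and (hd1 _ hY0'))).exists
      have h3 : E Y = E Y0 := hY.trans hY0.symm
      simp only [E, dif_pos hY', dif_pos hY0'] at h3
      have h4 : d Y = d Y0 := congrArg Subtype.val (Ordinal.ToType.mk.injective (e.injective h3))
      exact absurd hY'' (by rw [h4]; exact lt_irrefl _)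
    · intro i
      by_cases hi : i ∈ c
      · filter_upwards [hi] with Y hY
        exact ⟨fun _ => hi, fun _ => hY⟩
      · filter_upwards [Ultrafilter.eventually_not.2 hi] with Y hY
        exact ⟨fun h => absurd h hY, fun h => absurd h hi⟩

end SF.H32
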